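import Pool.Agent.Lib.MP_081cfe_al.Reg

/-!
Regularity of the powers of the edge ideal of a graph with induced matching number one.
-/

namespace Pool.Agent.Results.MP_081cfe_al.RegularityOfPowers

open Pool.Agent.Lib.MP_081cfe_al

/-- Let `G` be a finite graph with `ν(G) = 1`, `k` a field and `I = I(G)`. Then `reg I < ∞`,
`reg I ^ q = max (2 q) (q - 1 + reg I)` for every `q ≥ 1`, and
`reg I ^ (q + 1) = reg I ^ q + 2`, `reg I ^ q = 2 q` for every `q ≥ reg I - 1`. -/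
theorem result {V : Type} [Fintype V] {k : Type} [Field k] (G : SimpleGraph V)
    (hν : nu G = 1) :
    reg (edgeIdeal k G) < ⊤ ∧
    (∀ q : ℕ, 1 ≤ q → reg (edgeIdeal k G ^ q) =
      max ((2 * q : ℕ) : ℕ∞) (((q - 1 : ℕ) : ℕ∞) + reg (edgeIdeal k G))) ∧
    (∀ q : ℕ, reg (edgeIdeal k G) ≤ (q : ℕ∞) + 1 →
      reg (edgeIdeal k G ^ (q + 1)) = reg (edgeIdeal k G ^ q) + 2 ∧
      reg (edgeIdeal k G ^ q) = 2 * (q : ℕ∞)) :=
  reg_powers G hν

end Pool.Agent.Results.MP_081cfe_al.RegularityOfPowers
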